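import Pool.Agent.N245.DS.Geo
import Mathlib.Analysis.InnerProductSpace.Laplacian
import Mathlib.Analysis.Normed.Affine.MazurUlam

set_option autoImplicit false

/-! # Change of coordinates by a similarity for the quotients of the plane -/

namespace Pool.Agent.N878.DS

open MeasureTheory Pool.Agent.N245.DS

/-- The similarity `z ↦ s τ(z)`. -/
noncomputable def TT (s : ℝ) (τ : ℂ ≃ᵢ ℂ) (z : ℂ) : ℂ := s * τ z

/-- The inverse of the similarity. -/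
noncomputable def TI (s : ℝ) (τ : ℂ ≃ᵢ ℂ) (z : ℂ) : ℂ := τ.symm ((s : ℂ)⁻¹ * z)

lemma TT_TI (s : ℝ) (τ : ℂ ≃ᵢ ℂ) (hs : 0 < s) (z : ℂ) : TT s τ (TI s τ z) = z := by
  have hs' : (s : ℂ) ≠ 0 := by exact_mod_cast hs.ne'
  simp only [TT, TI, IsometryEquiv.apply_symm_apply]
  field_simp

lemma TT_inj (s : ℝ) (τ : ℂ ≃ᵢ ℂ) (hs : 0 < s) {z w : ℂ} (h : TT s τ z = TT s τ w) : z = w := by
  have hs' : (s : ℂ) ≠ 0 := by exact_mod_cast hs.ne'
  simp only [TT] at h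
  exact τ.injective (mul_left_cancel₀ hs' h)

lemma TT_surj (s : ℝ) (τ : ℂ ≃ᵢ ℂ) (hs : 0 < s) : Function.Surjective (TT s τ) :=
  fun z => ⟨TI s τ z, TT_TI s τ hs z⟩

lemma tau_eq (τ : ℂ ≃ᵢ ℂ) (z : ℂ) : τ z = τ.toRealLinearIsometryEquiv z + τ 0 := by
  rw [IsometryEquiv.toRealLinearIsometryEquiv_apply]; ring

/-- The linear part of the similarity. -/
noncomputable def LP (s : ℝ) (τ : ℂ ≃ᵢ ℂ) : ℂ →L[ℝ] ℂ :=
  s • (τ.toRealLinearIsometryEquiv : ℂ →L[ℝ] ℂ)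

lemma LP_apply (s : ℝ) (τ : ℂ ≃ᵢ ℂ) (z : ℂ) :
    LP s τ z = s • τ.toRealLinearIsometryEquiv z := rfl

lemma TT_eq (s : ℝ) (τ : ℂ ≃ᵢ ℂ) (z : ℂ) : TT s τ z = LP s τ z + TT s τ 0 := by
  rw [LP_apply, TT, TT, tau_eq τ z, Complex.real_smul]; ring

lemma TT_contDiff (s : ℝ) (τ : ℂ ≃ᵢ ℂ) (n : WithTop ℕ∞) : ContDiff ℝ n (TT s τ) := by
  have : TT s τ = fun z => LP s τ z + TT s τ 0 := funext (TT_eq s τ)
  rw [this]
  exact (LP s τ).contDiff.add contDiff_const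

lemma TI_contDiff (s : ℝ) (τ : ℂ ≃ᵢ ℂ) (n : WithTop ℕ∞) : ContDiff ℝ n (TI s τ) := by
  have : TI s τ = fun z => τ.symm.toRealLinearIsometryEquiv ((s : ℂ)⁻¹ * z) + τ.symm 0 := by
    funext z
    rw [TI, tau_eq τ.symm]
  rw [this]
  exact (τ.symm.toRealLinearIsometryEquiv.contDiff.comp (contDiff_const.mul contDiff_id)).add
    contDiff_const

lemma deriv_TT (s : ℝ) (τ : ℂ ≃ᵢ ℂ) (γ : ℝ → ℂ) (hγ : ContDiff ℝ 1 γ) (t : ℝ) :
    deriv (fun t => TT s τ (γ t)) t = LP s τ (deriv γ t) := by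
  have h1 : HasDerivAt γ (deriv γ t) t := (hγ.differentiable (by norm_num) t).hasDerivAt
  have h2 : HasDerivAt (fun t => LP s τ (γ t) + TT s τ 0) (LP s τ (deriv γ t)) t :=
    ((LP s τ).hasFDerivAt.comp_hasDerivAt t h1).add_const _
  have : (fun t => TT s τ (γ t)) = fun t => LP s τ (γ t) + TT s τ 0 :=
    funext fun t => TT_eq s τ _
  rw [this]
  exact h2.deriv

lemma norm_LP (s : ℝ) (τ : ℂ ≃ᵢ ℂ) (hs : 0 < s) (z : ℂ) : ‖LP s τ z‖ = s * ‖z‖ := by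
  rw [LP_apply, norm_smul, Real.norm_eq_abs, abs_of_pos hs, LinearIsometryEquiv.norm_map]

lemma len_TT (s : ℝ) (τ : ℂ ≃ᵢ ℂ) (ρ ρ' : ℂ → ℝ) (hs : 0 < s)
    (h : ∀ z, ρ' z = s ^ 2 * ρ (s * τ z)) (γ : ℝ → ℂ) (hγ : ContDiff ℝ 1 γ) :
    len ρ' γ = len ρ (fun t => TT s τ (γ t)) := by
  unfold len
  congr 1
  funext t
  rw [deriv_TT s τ γ hγ, norm_LP s τ hs, h, Real.sqrt_mul (sq_nonneg s), Real.sqrt_sq hs.le]
  simp only [TT]
  ring

section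

variable (s : ℝ) (τ : ℂ ≃ᵢ ℂ) (ρ ρ' : ℂ → ℝ) (G G' : Subgroup (ℂ ≃ᵢ ℂ)) (hs : 0 < s)
  (h : ∀ z, ρ' z = s ^ 2 * ρ (s * τ z))
  (h1 : ∀ σ ∈ G, ∃ σ' ∈ G', ∀ z, σ (s * τ z) = s * τ (σ' z))
  (h2 : ∀ σ' ∈ G', ∃ σ ∈ G, ∀ z, σ (s * τ z) = s * τ (σ' z))

include hs h h1 h2

lemma gdist_TT (p q : ℂ) : gdist ρ' G' p q = gdist ρ G (TT s τ p) (TT s τ q) := by
  unfold gdist
  congr 1
  ext l
  constructor
  · rintro ⟨γ, hγ, h0, ⟨σ', hσ', h3⟩, rfl⟩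
    obtain ⟨σ, hσ, h4⟩ := h2 σ' hσ'
    refine ⟨fun t => TT s τ (γ t), (TT_contDiff s τ 1).comp hγ, ?_, ⟨σ, hσ, ?_⟩,
      len_TT s τ ρ ρ' hs h γ hγ⟩
    · simp only [h0]
    · simp only [h3]
      exact (h4 q).symm
  · rintro ⟨γ, hγ, h0, ⟨σ, hσ, h3⟩, rfl⟩
    obtain ⟨σ', hσ', h4⟩ := h1 σ hσ
    have hc : ContDiff ℝ 1 (fun t => TI s τ (γ t)) := (TI_contDiff s τ 1).comp hγ
    refine ⟨fun t => TI s τ (γ t), hc, ?_, ⟨σ', hσ', ?_⟩, ?_⟩
    · apply TT_inj s τ hs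
      simp only [TT_TI s τ hs, h0]
    · apply TT_inj s τ hs
      simp only [TT_TI s τ hs, h3]
      exact h4 q
    · rw [len_TT s τ ρ ρ' hs h _ hc]
      simp only [TT_TI s τ hs]

lemma mem_disc_TT (p q : ℂ) (r : ℝ) :
    q ∈ disc ρ' G' p r ↔ TT s τ q ∈ disc ρ G (TT s τ p) r := by
  simp only [disc, Set.mem_setOf_eq, gdist_TT s τ ρ ρ' G G' hs h h1 h2]

lemma image_disc_TT (φ : ℂ → ℝ) (p : ℂ) (r : ℝ) :
    (fun q => |φ (TT s τ q)|) '' disc ρ' G' p r =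
      (fun q => |φ q|) '' disc ρ G (TT s τ p) r := by
  have hD : disc ρ' G' p r = (TT s τ) ⁻¹' disc ρ G (TT s τ p) r := by
    ext q
    exact mem_disc_TT s τ ρ ρ' G G' hs h h1 h2 p q r
  ext y
  constructor
  · rintro ⟨q, hq, rfl⟩
    rw [hD] at hq
    exact ⟨TT s τ q, hq, rfl⟩
  · rintro ⟨q, hq, rfl⟩
    refine ⟨TI s τ q, ?_, ?_⟩
    · rw [hD, Set.mem_preimage, TT_TI s τ hs]
      exact hq
    · simp only [TT_TI s τ hs]

lemma doubling_TT (φ : ℂ → ℝ) (p : ℂ) (r : ℝ) :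
    doubling ρ' G' (fun z => φ (TT s τ z)) p r = doubling ρ G φ (TT s τ p) r := by
  unfold doubling
  rw [image_disc_TT s τ ρ ρ' G G' hs h h1 h2, image_disc_TT s τ ρ ρ' G G' hs h h1 h2]

omit hs h h1 h2 in
lemma laplacian_TT (φ : ℂ → ℝ) (hφ : ContDiff ℝ 2 φ) (z : ℂ) :
    Laplacian.laplacian (fun z => φ (TT s τ z)) z =
      s ^ 2 * Laplacian.laplacian φ (TT s τ z) := by
  have e1 : (fun z => φ (TT s τ z)) = (fun y => φ (y + TT s τ 0)) ∘ (LP s τ) := by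
    funext z
    simp only [Function.comp]
    rw [TT_eq s τ z]
  have hc : ContDiff ℝ 2 (fun y => φ (y + TT s τ 0)) := hφ.comp (contDiff_id.add contDiff_const)
  have key : ∀ a : ℂ, iteratedFDeriv ℝ 2 (fun z => φ (TT s τ z)) z ![a, a] =
      s ^ 2 * iteratedFDeriv ℝ 2 φ (TT s τ z)
        ![τ.toRealLinearIsometryEquiv a, τ.toRealLinearIsometryEquiv a] := by
    intro a
    rw [e1, ContinuousLinearMap.iteratedFDeriv_comp_right (LP s τ) hc z (i := 2) le_rfl,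
      iteratedFDeriv_comp_add_right, ← TT_eq s τ z,
      ContinuousMultilinearMap.compContinuousLinearMap_apply]
    have e2 : (fun i : Fin 2 => LP s τ (![a, a] i)) =
        fun i : Fin 2 => s • (![τ.toRealLinearIsometryEquiv a, τ.toRealLinearIsometryEquiv a] i) := by
      funext i
      fin_cases i <;> simp [LP_apply]
    rw [e2, ContinuousMultilinearMap.map_smul_univ]
    simp [pow_two]
  rw [congrFun (InnerProductSpace.laplacian_eq_iteratedFDeriv_orthonormalBasis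
      (fun z => φ (TT s τ z)) Complex.orthonormalBasisOneI) z,
    congrFun (InnerProductSpace.laplacian_eq_iteratedFDeriv_orthonormalBasis φ
      (Complex.orthonormalBasisOneI.map τ.toRealLinearIsometryEquiv)) (TT s τ z), Finset.mul_sum]
  refine Finset.sum_congr rfl fun i _ => ?_
  rw [key, OrthonormalBasis.map_apply]

lemma eigen_TT (lam : ℝ) (φ : ℂ → ℝ) (hE : Eigen ρ G lam φ) :
    Eigen ρ' G' lam (fun z => φ (TT s τ z)) where
  pos := hE.pos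
  smooth := hE.smooth.comp (TT_contDiff s τ 2)
  inv := by
    intro σ' hσ' z
    obtain ⟨σ, hσ, h4⟩ := h2 σ' hσ'
    have := hE.inv σ hσ (TT s τ z)
    rw [← this]
    congr 1
    exact (h4 z).symm
  ne := by
    obtain ⟨z, hz⟩ := hE.ne
    exact ⟨TI s τ z, by simpa only [TT_TI s τ hs] using hz⟩
  eq := by
    intro z
    have := hE.eq (TT s τ z)
    rw [laplacian_TT s τ φ hE.smooth z, h z]
    have e : (s : ℂ) * τ z = TT s τ z := rfl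
    rw [e]
    linear_combination s ^ 2 * this

lemma admissible_TT (lam : ℝ) (φ : ℂ → ℝ) (C C₁ C₂ : ℝ) {ι : Type} [Fintype ι] (c : ι → ℂ)
    (hA : Admissible ρ G lam φ C C₁ C₂ c) :
    Admissible ρ' G' lam (fun z => φ (TT s τ z)) C C₁ C₂ (fun i => TI s τ (c i)) where
  cover := by
    intro q
    obtain ⟨i, hi⟩ := hA.cover (TT s τ q)
    refine ⟨i, ?_⟩
    rw [mem_disc_TT s τ ρ ρ' G G' hs h h1 h2, TT_TI s τ hs]
    exact hi
  lower := hA.lower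
  upper := hA.upper
  mult := by
    intro q
    have := hA.mult (TT s τ q)
    have e : {i | q ∈ disc ρ' G' (TI s τ (c i)) (C / Real.sqrt lam)} =
        {i | TT s τ q ∈ disc ρ G (c i) (C / Real.sqrt lam)} := by
      ext i
      simp only [Set.mem_setOf_eq]
      rw [mem_disc_TT s τ ρ ρ' G G' hs h h1 h2, TT_TI s τ hs]
    rw [e]
    exact this
  zero := by
    intro i
    simp only [TT_TI s τ hs]
    exact hA.zero i

end

theorem conj : Pool.Agent.N245.DS.S_CONJ := by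
  intro s τ ρ ρ' G G' hs h h1 h2 hG C C₁ C₂ hC hC₁ hC₂
  obtain ⟨A, hA, hA'⟩ := hG C C₁ C₂ hC hC₁ hC₂
  refine ⟨A, hA, ?_⟩
  intro lam φ hE ι _ c hc
  have := hA' lam (fun z => φ (TT s τ z)) (eigen_TT s τ ρ ρ' G G' hs h h1 h2 lam φ hE) ι
    (fun i => TI s τ (c i)) (admissible_TT s τ ρ ρ' G G' hs h h1 h2 lam φ C C₁ C₂ c hc)
  simp only [doubling_TT s τ ρ ρ' G G' hs h h1 h2, TT_TI s τ hs] at this
  exact this

end Pool.Agent.N878.DS
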